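import Pool.Agent.V2450.LT.Gal

/-!
# Weight-monodromy for rigid-analytic varieties and Galois invariants of products

`K` is a `p`-adic local field whose residue field has `q` elements. The cohomology of a smooth
rigid-analytic variety `X` of pure dimension `d` over `K` with a model with projective special fibre
(after a finite extension of `K` such that inertia acts unipotently) is the structure `X : Coh Ω`: the
spaces `X.gr m = H^m(X_C)` with coefficients in the algebraically closed field `Ω`, a geometric
Frobenius lift `X.F` and the monodromy operator `X.N`. The structure `IsLog` contains the properties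
which are known: finite dimension, vanishing for `m > 2 d`, `N F = q F N`, the eigenvalues of `F` are
`q`-Weil numbers of integral weights, and Poincare duality (the hard Lefschetz theorem and the
rationality of the characteristic polynomials are not assumed). The structure `IsSmooth` contains the
known properties of the varieties which have a smooth model with projective special fibre.

* `X.MWPure q m` is the conclusion of Q1 for `H^m(X)`.
* `galInv X q m j` is the space `H^m(X)(j)^G` of the Galois invariants.
* `InvVanish X q s`: `H^m(X)(j)^G = 0` whenever `2 j ≥ m + s`.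
* `KerLe X q s`: the weights of the eigenvectors of `F` in the space `ker N` of the inertia invariants
  of `H^m(X)` are at most `m + s`.
-/

set_option autoImplicit false

open Module TensorProduct

namespace Pool.Agent.Results.MP_0f76a4_ag.GaloisInvariants

universe u v w

open Pool.Agent.Y163.MW Pool.Agent.V2450.LT

/-- (1) The conclusion of Q1 is true for all the `H^m(X)` if and only if the weights on the inertia
invariants of all the `H^m(X × X)` are at most `m`, and if and only if they are at most `m + 1`.
(2) Let the `Y i` be varieties with smooth models such that for every eigenvalue `α` of `F` on the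
cohomology of `X × X` some `q ^ j / α` is an eigenvalue of `F` on the cohomology of some `Y i`. Then
the conclusion of Q1 is true for all the `H^m(X)` if and only if `H^m(X × X × Y i)(j)^G = 0` for all
`i`, `m` and `j` with `m < 2 j`, and if and only if this is so when `m + 2 ≤ 2 j`.
(3) For a class of varieties closed under products, which contains sufficiently many varieties with
smooth models, the conclusion of Q1 is true for all the varieties of the class if and only if
`H^m(X)(j)^G = 0` for all `X` in the class, and all `m` and `j` with `m < 2 j` (or only with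
`m + 2 ≤ 2 j`). -/
theorem result {Ω : Type w} [Field Ω] [CharZero Ω] [IsAlgClosed Ω] {q : ℕ} (hq : 1 < q) :
    (∀ (d : ℕ) (X XX : Coh.{v, w} Ω), IsLog X q d → IsLog XX q (d + d) →
      (∃ κ, IsKunneth X X XX κ) →
      ((∀ m, X.MWPure q m) ↔ KerLe XX q 0) ∧ ((∀ m, X.MWPure q m) ↔ KerLe XX q 1) ∧
      ∀ (ι : Type u) (e : ι → ℕ) (Y Q : ι → Coh.{v, w} Ω), (∀ i, IsSmooth (Y i) q (e i)) →
        (∀ i, IsLog (Q i) q (d + d + e i)) → (∀ i, ∃ κ, IsKunneth XX (Y i) (Q i) κ) →
        (∀ (m : ℕ) (α : Ω), IsEigenvalue XX m α →
          ∃ (i : ι) (n : ℕ) (j : ℤ), IsEigenvalue (Y i) n ((q : Ω) ^ j / α)) →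
        ((∀ m, X.MWPure q m) ↔ ∀ i, InvVanish (Q i) q 1) ∧
        ((∀ m, X.MWPure q m) ↔ ∀ i, InvVanish (Q i) q 2)) ∧
    (∀ (ι : Type u) (H : ι → Coh.{v, w} Ω) (dim : ι → ℕ) (good : ι → Prop),
      IsClass H dim good q →
      ((∀ i m, (H i).MWPure q m) ↔
        ∀ (i : ι) (m : ℕ) (j : ℤ), (m : ℤ) < 2 * j → galInv (H i) q m j = ⊥) ∧
      ((∀ i m, (H i).MWPure q m) ↔
        ∀ (i : ι) (m : ℕ) (j : ℤ), (m : ℤ) + 2 ≤ 2 * j → galInv (H i) q m j = ⊥)) := by
  refine ⟨?_, ?_⟩
  · rintro d X XX hX hXX ⟨κ, hκ⟩
    obtain ⟨h1, h2⟩ := kerLe_square_iff hX hq hXX hκ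
    refine ⟨h1, h2, ?_⟩
    intro ι e Y Q hY hQ hκ' hd
    have h3 : (∀ m, X.MWPure q m) → ∀ i, InvVanish (Q i) q 1 := by
      intro h i
      obtain ⟨κ', hκ'⟩ := hκ' i
      exact invVanish_of_kerLe hq (kerLe_prod hX hq hκ (hY i) (hQ i) hκ' h)
    have h4 : (∀ i, InvVanish (Q i) q 1) → ∀ i, InvVanish (Q i) q 2 :=
      fun h i m j hj => h i m j (by omega)
    have h5 := pure_of_invVanish hX hq hXX hκ hY hκ' hd
    exact ⟨⟨h3, fun h => h5 (h4 h)⟩, ⟨fun h => h4 (h3 h), h5⟩⟩
  · intro ι H dim good hH
    refine ⟨?_, ?_⟩
    · rw [class_iff hH hq (s := 1) le_rfl (by norm_num)]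
      exact ⟨fun h i m j hj => h i m j (by omega), fun h i m j hj => h i m j (by omega)⟩
    · rw [class_iff hH hq (s := 2) (by norm_num) le_rfl]
      exact ⟨fun h i m j hj => h i m j hj, fun h i m j hj => h i m j hj⟩

end Pool.Agent.Results.MP_0f76a4_ag.GaloisInvariants
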